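import Mathlib

/-!
# MP_43f51c_co, Q1: a connected graph whose outer-connected domination number is not smaller than
that of its middle graph

The graph has eight vertices: two adjacent vertices `6`, `7` with two common neighbours `0`, `1`,
a triangle `3, 4, 6` and a triangle `2, 5, 7`.
-/

set_option autoImplicit false

namespace Pool.Agent.Results.MP_43f51c_co.EqualityExample

/-- `D` is an outer-connected dominating set of `H`: every vertex outside `D` has a neighbour in
`D`, and the vertices outside `D` induce a connected graph (the empty graph being connected). -/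
def IsOCDom {W : Type} (H : SimpleGraph W) (D : Finset W) : Prop :=
  (∀ v, v ∉ D → ∃ u ∈ D, H.Adj v u) ∧ (H.induce {v | v ∉ D}).Preconnected

/-- The outer-connected domination number. -/
noncomputable def ocDomNum {W : Type} (H : SimpleGraph W) : ℕ :=
  sInf {k | ∃ D : Finset W, IsOCDom H D ∧ D.card = k}

/-- The middle graph of `G`. -/
def middleGraph {V : Type} (G : SimpleGraph V) : SimpleGraph (V ⊕ G.edgeSet) where
  Adj a b := match a, b with
    | .inl _, .inl _ => False
    | .inl v, .inr e => v ∈ e.1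
    | .inr e, .inl v => v ∈ e.1
    | .inr e, .inr f => e ≠ f ∧ ∃ v, v ∈ e.1 ∧ v ∈ f.1
  symm := ⟨fun a b h => by
    rcases a with a | a <;> rcases b with b | b
    · exact h
    · exact h
    · exact h
    · exact ⟨h.1.symm, h.2.imp fun v hv => ⟨hv.2, hv.1⟩⟩⟩
  loopless := ⟨fun a h => by
    rcases a with a | a
    · exact h
    · exact h.1 rfl⟩

/-- The neighbours of the vertices. -/
def nb : Fin 8 → Finset (Fin 8) :=
  ![{6, 7}, {6, 7}, {5, 7}, {4, 6}, {3, 6}, {2, 7}, {0, 1, 3, 4, 7}, {0, 1, 2, 5, 6}]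

/-- The example. -/
def G : SimpleGraph (Fin 8) where
  Adj a b := b ∈ nb a
  symm := ⟨by decide⟩
  loopless := ⟨by decide⟩

instance : DecidableRel G.Adj := fun a b => by unfold G; infer_instance

instance : DecidableRel (middleGraph G).Adj := fun a b =>
  match a, b with
  | .inl _, .inl _ => isFalse (fun h => h)
  | .inl v, .inr e => inferInstanceAs (Decidable (v ∈ e.1))
  | .inr e, .inl v => inferInstanceAs (Decidable (v ∈ e.1))
  | .inr e, .inr f => inferInstanceAs (Decidable (e ≠ f ∧ ∃ v, v ∈ e.1 ∧ v ∈ f.1))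

/-- The edge `ab`. -/
def ed (a b : Fin 8) (h : G.Adj a b) : G.edgeSet := ⟨s(a, b), h⟩

/-- An outer-connected dominating set of the middle graph (a perfect matching of `G`). -/
def D₀ : Finset (Fin 8 ⊕ G.edgeSet) :=
  {.inr (ed 3 4 (by decide)), .inr (ed 2 5 (by decide)), .inr (ed 0 6 (by decide)),
    .inr (ed 1 7 (by decide))}

/-- An ordering of the remaining elements. -/
def rank : Fin 8 ⊕ G.edgeSet → ℕ
  | .inl v => if v = 6 ∨ v = 7 then 2 else 4
  | .inr e => if e.1 = s(6, 7) then 1 else 3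

theorem D₀_dom : ∀ v, v ∉ D₀ → ∃ u ∈ D₀, (middleGraph G).Adj v u := by decide +kernel

theorem D₀_rank : ∀ v, v ∉ D₀ → v = .inr (ed 6 7 (by decide)) ∨
    ∃ u, u ∉ D₀ ∧ rank u < rank v ∧ (middleGraph G).Adj v u := by decide +kernel

theorem D₀_card : D₀.card = 4 := by decide +kernel

theorem D₀_ocDom : IsOCDom (middleGraph G) D₀ := by
  refine ⟨D₀_dom, ?_⟩
  have h0 : (Sum.inr (ed 6 7 (by decide)) : Fin 8 ⊕ G.edgeSet) ∉ D₀ := by decide +kernel
  have key : ∀ k : ℕ, ∀ v : {v | v ∉ D₀}, rank v.1 = k →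
      ((middleGraph G).induce {v | v ∉ D₀}).Reachable v ⟨_, h0⟩ := by
    intro k
    induction k using Nat.strong_induction_on with
    | _ k ih =>
      rintro ⟨v, hv⟩ hk
      rcases D₀_rank v hv with h | ⟨u, hu, hr, hadj⟩
      · subst h; exact SimpleGraph.Reachable.refl _
      · have h1 : ((middleGraph G).induce {v | v ∉ D₀}).Adj ⟨v, hv⟩ ⟨u, hu⟩ := hadj
        exact h1.reachable.trans (ih (rank u) (hk ▸ hr) ⟨u, hu⟩ rfl)
  intro u v
  exact (key _ u rfl).trans (key _ v rfl).symm

/-- `C` separates the complement of `D`. -/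
def Sep (D C : Finset (Fin 8)) : Prop :=
  (∃ a, a ∉ D ∧ a ∈ C) ∧ (∃ b, b ∉ D ∧ b ∉ C) ∧
    ∀ a : Fin 8, ∀ b : Fin 8, (a ∉ D ∧ b ∉ D ∧ a ∈ C ∧ b ∉ C) → ¬ G.Adj a b

instance (D C : Finset (Fin 8)) : Decidable (Sep D C) := by unfold Sep; infer_instance

/-- Each dominating set of `G` with at most three vertices has a disconnected complement. -/
theorem cut : ∀ D : Finset (Fin 8), D.card ≤ 3 → (∀ v, v ∉ D → ∃ u ∈ D, G.Adj v u) →
    ∃ C : Finset (Fin 8), Sep D C := by decide +kernel

theorem lower (D : Finset (Fin 8)) (hD : IsOCDom G D) : 4 ≤ D.card := by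
  by_contra hlt
  rw [not_le] at hlt
  obtain ⟨C, ⟨a, ha, haC⟩, ⟨b, hb, hbC⟩, hC⟩ := cut D (by omega) hD.1
  obtain ⟨w⟩ := hD.2 ⟨a, ha⟩ ⟨b, hb⟩
  have key : ∀ (x y : {v | v ∉ D}), (G.induce {v | v ∉ D}).Walk x y → x.1 ∈ C → y.1 ∈ C := by
    intro x y w
    induction w with
    | nil => exact fun h => h
    | cons hadj _ ih =>
      rename_i x z y _
      intro h
      apply ih
      by_contra hz
      exact hC x.1 z.1 ⟨x.2, z.2, h, hz⟩ hadj
  exact hbC (key _ _ w haC)

/-- There is a connected graph `G` with eight vertices whose outer-connected domination number is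
at least 4 while the outer-connected domination number of its middle graph is at most 4. -/
theorem result : ∃ G : SimpleGraph (Fin 8), G.Connected ∧
    ocDomNum (middleGraph G) ≤ 4 ∧ 4 ≤ ocDomNum G := by
  refine ⟨G, ?_, Nat.sInf_le ⟨D₀, D₀_ocDom, D₀_card⟩, ?_⟩
  · have key : ∀ v : Fin 8, G.Reachable v 6 := by
      have hstep : ∀ v : Fin 8, G.Adj v 6 ∨ v = 6 ∨ ∃ u : Fin 8, G.Adj v u ∧ G.Adj u 6 := by
        decide +kernel
      intro v
      rcases hstep v with h | h | ⟨u, h1, h2⟩
      · exact h.reachable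
      · rw [h]
      · exact h1.reachable.trans h2.reachable
    refine SimpleGraph.Connected.mk ?_
    intro u v
    exact (key u).trans (key v).symm
  · have huniv : IsOCDom G Finset.univ := by
      refine ⟨fun v hv => absurd (Finset.mem_univ v) hv, fun u => absurd (Finset.mem_univ u.1) u.2⟩
    obtain ⟨D, hD, hc⟩ := Nat.sInf_mem
      (s := {k | ∃ D : Finset (Fin 8), IsOCDom G D ∧ D.card = k}) ⟨_, Finset.univ, huniv, rfl⟩
    unfold ocDomNum
    rw [← hc]
    exact lower D hD

end Pool.Agent.Results.MP_43f51c_co.EqualityExample
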